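import Pool.Agent.SKQ.Kit

/-!
# The smooth cut-off at scale `s`
-/

set_option autoImplicit false

namespace Pool.Agent.SKQ.H14

open Metric Set Filter Topology MeasureTheory
open scoped ENNReal
open Helper22QC Pool.Agent.SKQ

theorem cut : Pool.Agent.SKQ.CUTStmt := by
  intro n
  let b : ContDiffBump (0 : E n) := ⟨1, 3 / 2, by norm_num, by norm_num⟩
  have hb : ContDiff ℝ (⊤ : ℕ∞) (b : E n → ℝ) := b.contDiff
  have hcs : HasCompactSupport (b : E n → ℝ) := b.hasCompactSupport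
  obtain ⟨C, hC⟩ : ∃ C, ∀ x, ‖fderiv ℝ (b : E n → ℝ) x‖ ≤ C :=
    (hb.continuous_fderiv (by simp)).bounded_above_of_compact_support (hcs.fderiv ℝ)
  have hC0 : 0 ≤ C := (norm_nonneg _).trans (hC 0)
  refine ⟨C + 1, by linarith, fun c s hs => ?_⟩
  refine ⟨fun y => b (s⁻¹ • (y - c)), ?_, ?_, ?_, ?_, ?_⟩
  · exact hb.comp ((contDiff_id.sub contDiff_const).const_smul s⁻¹)
  · intro y
    exact ⟨b.nonneg, b.le_one⟩
  · intro y hy
    apply b.one_of_mem_closedBall
    rw [mem_closedBall, dist_zero_right, norm_smul, norm_inv, Real.norm_of_nonneg hs.le]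
    show s⁻¹ * ‖y - c‖ ≤ 1
    rw [inv_mul_le_iff₀ hs, mul_one]
    exact hy
  · refine closure_minimal ?_ isClosed_closedBall
    intro y hy
    have h1 : s⁻¹ • (y - c) ∈ Function.support (b : E n → ℝ) := hy
    rw [b.support_eq, mem_ball, dist_zero_right, norm_smul, norm_inv,
      Real.norm_of_nonneg hs.le] at h1
    have h2 : s⁻¹ * ‖y - c‖ < 3 / 2 := h1
    rw [mem_closedBall, dist_eq_norm]
    rw [inv_mul_lt_iff₀ hs] at h2
    linarith
  · intro y
    have hd : HasFDerivAt (fun y : E n => s⁻¹ • (y - c)) (s⁻¹ • ContinuousLinearMap.id ℝ (E n)) y :=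
      ((hasFDerivAt_id y).sub_const c).const_smul s⁻¹
    have hd2 := (((hb.differentiable (by simp)) (s⁻¹ • (y - c))).hasFDerivAt).comp y hd
    have e : fderiv ℝ (fun y => b (s⁻¹ • (y - c))) y =
        (fderiv ℝ (b : E n → ℝ) (s⁻¹ • (y - c))).comp (s⁻¹ • ContinuousLinearMap.id ℝ (E n)) :=
      hd2.fderiv
    rw [e]
    calc ‖(fderiv ℝ (b : E n → ℝ) (s⁻¹ • (y - c))).comp (s⁻¹ • ContinuousLinearMap.id ℝ (E n))‖
        ≤ ‖fderiv ℝ (b : E n → ℝ) (s⁻¹ • (y - c))‖ * ‖s⁻¹ • ContinuousLinearMap.id ℝ (E n)‖ :=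
          ContinuousLinearMap.opNorm_comp_le _ _
      _ ≤ C * (s⁻¹ * 1) := by
          rw [norm_smul, norm_inv, Real.norm_of_nonneg hs.le]
          gcongr
          · exact hC _
          · exact ContinuousLinearMap.norm_id_le
      _ ≤ (C + 1) / s := by
          rw [mul_one, div_eq_mul_inv]
          gcongr
          linarith

end Pool.Agent.SKQ.H14
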