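import Pool.Agent.SKQ.Kit

/-!
# The energy on an annulus
-/

set_option autoImplicit false

namespace Pool.Agent.SKQ.H14

open Metric Set Filter Topology MeasureTheory
open scoped ENNReal
open Helper22QC Pool.Agent.SKQ

theorem enw (qsd : Pool.Agent.SKQ.QSDStmt) (ene : Pool.Agent.SKQ.ENEStmt) :
    Pool.Agent.SKQ.ENWStmt := by
  intro n hn
  obtain ⟨H, hH1, hH⟩ := qsd n hn
  obtain ⟨C, hC0, hC⟩ := ene n (by omega)
  have hH0 : 0 < H := by linarith
  have hlog : 0 ≤ Real.log (H * H) := Real.log_nonneg (by nlinarith)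
  refine ⟨C * 2 * (1 + Real.log (H * H)), by positivity, ?_⟩
  intro R s f F c hloc hs hsub
  have hnR : (1 : ℝ) ≤ n := by
    have : (2 : ℝ) ≤ n := by exact_mod_cast hn
    linarith
  have hS : ann c s (4 * s) ⊆ ball 0 R := by
    refine (ann_subset_closedBall c s (4 * s)).trans (Subset.trans ?_ hsub)
    apply closedBall_subset_closedBall
    nlinarith
  have hc : c ∈ ball (0 : E n) R := hsub (mem_closedBall_self (by positivity))
  rcases (ann c s (4 * s)).eq_empty_or_nonempty with he | ⟨y0, hy0⟩
  · rw [he]
    constructor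
    · exact integrableOn_empty
    · rw [Measure.restrict_empty, integral_zero_measure]
      positivity
  · have hne : ∀ y ∈ ann c s (4 * s), 0 < ‖f y - f c‖ := by
      intro y hy
      apply norm_pos_iff.2
      apply hloc.ne (hS hy) hc
      rintro rfl
      have := hy.1
      rw [sub_self, norm_zero] at this
      linarith
    have h0 := hne y0 hy0
    have key := hC R 2 (‖f y0 - f c‖ / H) (H * ‖f y0 - f c‖) f F c (ann c s (4 * s))
      (by norm_num) hloc hc (isCompact_ann c s (4 * s)) hS (by positivity)
      (by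
        rw [div_le_iff₀ hH0]
        have e1 : ‖f y0 - f c‖ ≤ H * ‖f y0 - f c‖ := le_mul_of_one_le_left h0.le hH1
        have e2 : H * ‖f y0 - f c‖ ≤ H * ‖f y0 - f c‖ * H :=
          le_mul_of_one_le_right (by positivity) hH1
        exact e1.trans e2)
      (fun y hy => ⟨by
        rw [div_le_iff₀ hH0, mul_comm]
        exact hH R s f F c hloc hs hsub y0 hy0 y hy, hH R s f F c hloc hs hsub y hy y0 hy0⟩)
    have e : H * ‖f y0 - f c‖ / (‖f y0 - f c‖ / H) = H * H := by
      field_simp
    rw [e] at key
    exact key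

end Pool.Agent.SKQ.H14
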