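import Pool.Agent.SKQ.Kit

/-!
# Oscillation on the boundary of a cube: limits of smooth functions
-/

set_option autoImplicit false

namespace Pool.Agent.SKQ.H14

open Metric Set Filter Topology MeasureTheory
open scoped ENNReal
open Helper22QC Pool.Agent.SKQ

variable {n : ℕ}

theorem pow_add_le {a b : ℝ} (ha : 0 ≤ a) (hb : 0 ≤ b) (n : ℕ) :
    (a + b) ^ n ≤ 2 ^ n * (a ^ n + b ^ n) := by
  have h2 : a + b ≤ 2 * max a b := by
    have := le_max_left a b
    have := le_max_right a b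
    linarith
  calc (a + b) ^ n ≤ (2 * max a b) ^ n := pow_le_pow_left₀ (by positivity) h2 n
    _ = 2 ^ n * max a b ^ n := mul_pow _ _ _
    _ ≤ 2 ^ n * (a ^ n + b ^ n) := by
        refine mul_le_mul_of_nonneg_left ?_ (by positivity)
        rcases max_cases a b with ⟨h, _⟩ | ⟨h, _⟩ <;> rw [h] <;>
          nlinarith [pow_nonneg ha n, pow_nonneg hb n]

/-- the limit of the values at moving points -/
theorem lim_val {C : Set (E n)} {w : E n → ℝ} {w' : ℕ → E n → ℝ}
    (hu : TendstoUniformlyOn w' w atTop C) (hw : ContinuousOn w C) {x : E n} (hx : x ∈ C)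
    {φ : ℕ → ℕ} (hφ : Tendsto φ atTop atTop) {X : ℕ → E n} (hX : ∀ m, X m ∈ C)
    (hXx : Tendsto X atTop (𝓝 x)) : Tendsto (fun m => w' (φ m) (X m)) atTop (𝓝 (w x)) := by
  have h1 : Tendsto (fun m => w (X m)) atTop (𝓝 (w x)) := by
    refine (hw x hx).tendsto.comp ?_
    exact tendsto_nhdsWithin_iff.2 ⟨hXx, Eventually.of_forall hX⟩
  rw [Metric.tendsto_atTop] at h1 ⊢
  intro ε hε
  obtain ⟨N1, hN1⟩ := h1 (ε / 2) (by positivity)
  have h2 := Metric.tendstoUniformlyOn_iff.1 hu (ε / 2) (by positivity)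
  obtain ⟨N2, hN2⟩ := eventually_atTop.1 (hφ.eventually h2)
  refine ⟨max N1 N2, fun m hm => ?_⟩
  have a1 := hN1 m (le_of_max_le_left hm)
  have a2 := hN2 m (le_of_max_le_right hm) (X m) (hX m)
  rw [dist_comm] at a2
  calc dist (w' (φ m) (X m)) (w x) ≤ dist (w' (φ m) (X m)) (w (X m)) + dist (w (X m)) (w x) :=
        dist_triangle _ _ _
    _ < ε / 2 + ε / 2 := add_lt_add a2 a1
    _ = ε := by ring

theorem osc (oss : Pool.Agent.SKQ.OSSStmt) : Pool.Agent.SKQ.OSCStmt := by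
  intro n hn
  obtain ⟨C, hC0, hC⟩ := oss n hn
  refine ⟨C * 2 ^ n, by positivity, ?_⟩
  intro k w W c a ha hw
  set Q := cube c (2 * a) with hQ
  have hQc : IsCompact Q := isCompact_cube c (2 * a)
  choose w' h1 h2 h3 using fun j => (hw j).ap
  -- the smooth approximations
  have key : ∀ m : ℕ, ∃ t : ℝ, a ≤ t ∧ t ≤ 2 * a ∧
      ∀ j, ∀ x ∈ bcube c t, ∀ y ∈ bcube c t, |w' j m x - w' j m y| ^ n ≤
        C * ∫ z in Q, ∑ j, ‖gr (fderiv ℝ (w' j m) z)‖ ^ n := fun m =>
    hC k (fun j => w' j m) c a ha (fun j => h1 j m)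
  choose t ht1 ht2 ht using key
  obtain ⟨t0, ht0, φ, hφ, hlim⟩ := (isCompact_Icc (a := a) (b := 2 * a)).tendsto_subseq
    (fun m => ⟨ht1 m, ht2 m⟩ : ∀ m, t m ∈ Icc a (2 * a))
  have ht0' : 0 < t0 := ha.trans_le ht0.1
  refine ⟨t0, ht0.1, ht0.2, ?_⟩
  intro j x hx y hy
  -- the integrals
  have iG : ∀ j m, IntegrableOn (fun z => ‖gr (fderiv ℝ (w' j m) z)‖ ^ n) Q := fun j m =>
    (((continuous_grad (h1 j m)).norm.pow n).continuousOn).integrableOn_compact hQc
  have iD : ∀ j m, IntegrableOn (fun z => ‖gr (fderiv ℝ (w' j m) z) - W j z‖ ^ n) Q :=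
    fun j m => integrableOn_sub_pow (hw j).meas (hw j).int
      (continuous_grad (h1 j m)).aestronglyMeasurable (iG j m)
  have hI : ∀ m, ∫ z in Q, ∑ j, ‖gr (fderiv ℝ (w' j m) z)‖ ^ n ≤
      2 ^ n * ((∫ z in Q, ∑ j, ‖W j z‖ ^ n) +
        ∑ j, ∫ z in Q, ‖gr (fderiv ℝ (w' j m) z) - W j z‖ ^ n) := by
    intro m
    rw [← integral_finsetSum _ (fun j _ => iD j m),
      ← integral_add (integrable_finsetSum _ fun j _ => (hw j).int)
        (integrable_finsetSum _ fun j _ => iD j m), ← integral_const_mul]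
    refine integral_mono (integrable_finsetSum _ fun j _ => iG j m)
      (((integrable_finsetSum _ fun j _ => (hw j).int).add
        (integrable_finsetSum _ fun j _ => iD j m)).const_mul _) fun z => ?_
    show ∑ j, ‖gr (fderiv ℝ (w' j m) z)‖ ^ n ≤ 2 ^ n * (∑ j, ‖W j z‖ ^ n +
      ∑ j, ‖gr (fderiv ℝ (w' j m) z) - W j z‖ ^ n)
    rw [← Finset.sum_add_distrib, Finset.mul_sum]
    refine Finset.sum_le_sum fun j _ => ?_
    have e : ‖gr (fderiv ℝ (w' j m) z)‖ ≤ ‖W j z‖ + ‖gr (fderiv ℝ (w' j m) z) - W j z‖ := by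
      calc ‖gr (fderiv ℝ (w' j m) z)‖ = ‖W j z + (gr (fderiv ℝ (w' j m) z) - W j z)‖ := by
            rw [add_sub_cancel]
        _ ≤ _ := norm_add_le _ _
    exact (pow_le_pow_left₀ (norm_nonneg _) e n).trans
      (pow_add_le (norm_nonneg _) (norm_nonneg _) n)
  have hl : Tendsto (fun m => C * (2 ^ n * ((∫ z in Q, ∑ j, ‖W j z‖ ^ n) +
        ∑ j, ∫ z in Q, ‖gr (fderiv ℝ (w' j (φ m)) z) - W j z‖ ^ n))) atTop
      (𝓝 (C * (2 ^ n * ((∫ z in Q, ∑ j, ‖W j z‖ ^ n) + ∑ j : Fin k, (0 : ℝ))))) := by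
    refine Tendsto.const_mul _ (Tendsto.const_mul _ (tendsto_const_nhds.add ?_))
    exact tendsto_finsetSum _ fun j _ => (h3 j).comp hφ.tendsto_atTop
  -- the moving points
  have hmove : ∀ x ∈ bcube c t0, ∃ X : ℕ → E n, (∀ m, X m ∈ bcube c (t (φ m))) ∧
      Tendsto X atTop (𝓝 x) := by
    intro x hx
    refine ⟨fun m => c + (t (φ m) / t0) • (x - c), fun m => ?_, ?_⟩
    · have hm0 : 0 < t (φ m) := ha.trans_le (ht1 _)
      have e : ∀ i, (c + (t (φ m) / t0) • (x - c)) i - c i = t (φ m) / t0 * (x i - c i) := by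
        intro i
        simp
      have e' : ∀ i, |(c + (t (φ m) / t0) • (x - c)) i - c i| = t (φ m) / t0 * |x i - c i| := by
        intro i
        rw [e, abs_mul, abs_of_pos (by positivity)]
      refine ⟨fun i => ?_, ?_⟩
      · rw [e']
        calc t (φ m) / t0 * |x i - c i| ≤ t (φ m) / t0 * t0 := by
              gcongr
              exact hx.1 i
          _ = t (φ m) := by field_simp
      · obtain ⟨i, hi⟩ := hx.2
        refine ⟨i, ?_⟩
        rw [e', hi]
        field_simp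
    · have e1 : Tendsto (fun m => c + (t (φ m) / t0) • (x - c)) atTop
          (𝓝 (c + (t0 / t0) • (x - c))) :=
        tendsto_const_nhds.add ((hlim.div_const t0).smul_const (x - c))
      rw [div_self ht0'.ne', one_smul, add_sub_cancel] at e1
      exact e1
  obtain ⟨X, hX1, hX2⟩ := hmove x hx
  obtain ⟨Y, hY1, hY2⟩ := hmove y hy
  have sub : ∀ m, bcube c (t (φ m)) ⊆ Q := fun m =>
    (bcube_subset_cube c _).trans (cube_mono c (ht2 _))
  have sub0 : bcube c t0 ⊆ Q := (bcube_subset_cube c _).trans (cube_mono c ht0.2)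
  have hcw := (hw j).continuousOn
  have lx := lim_val (h2 j) hcw (sub0 hx) hφ.tendsto_atTop (fun m => sub m (hX1 m)) hX2
  have ly := lim_val (h2 j) hcw (sub0 hy) hφ.tendsto_atTop (fun m => sub m (hY1 m)) hY2
  have ll := ((lx.sub ly).abs).pow n
  have := le_of_tendsto_of_tendsto' ll hl fun m =>
    (ht (φ m) j (X m) (hX1 m) (Y m) (hY1 m)).trans
      (mul_le_mul_of_nonneg_left (hI (φ m)) hC0.le)
  simpa [mul_assoc] using this

end Pool.Agent.SKQ.H14
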