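import Pool.Agent.SKQ.Kit

/-!
# The smooth logarithmic cut-off
-/

set_option autoImplicit false

namespace Pool.Agent.SKQ.H14

open Metric Set Filter Topology MeasureTheory
open scoped ENNReal
open Helper22QC Pool.Agent.SKQ

theorem sT_bound : ∃ C : ℝ, 0 < C ∧ ∀ t, |deriv Real.smoothTransition t| ≤ C := by
  have hc : Continuous (deriv Real.smoothTransition) :=
    (Real.smoothTransition.contDiff (n := 1)).continuous_deriv le_rfl
  obtain ⟨C, hC⟩ := (isCompact_Icc (a := (0 : ℝ)) (b := 1)).exists_bound_of_continuousOn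
    hc.continuousOn
  have hC0 : 0 ≤ C := (norm_nonneg _).trans (hC 0 ⟨le_rfl, zero_le_one⟩)
  refine ⟨C + 1, by linarith, fun t => ?_⟩
  by_cases h0 : t < 0
  · have : Real.smoothTransition =ᶠ[𝓝 t] fun _ => (0 : ℝ) := by
      filter_upwards [Iio_mem_nhds h0] with x hx
      exact Real.smoothTransition.zero_of_nonpos (le_of_lt hx)
    rw [this.deriv_eq]
    simp
    linarith
  · by_cases h1 : 1 < t
    · have : Real.smoothTransition =ᶠ[𝓝 t] fun _ => (1 : ℝ) := by
        filter_upwards [Ioi_mem_nhds h1] with x hx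
        exact Real.smoothTransition.one_of_one_le (le_of_lt hx)
      rw [this.deriv_eq]
      simp
      linarith
    · push Not at h0 h1
      have := hC t ⟨h0, h1⟩
      rw [Real.norm_eq_abs] at this
      linarith

theorem tht : Pool.Agent.SKQ.THTStmt := by
  obtain ⟨C, hC0, hC⟩ := sT_bound
  refine ⟨C, hC0, fun n l L hl hlL => ?_⟩
  have hL : 0 < L := hl.trans hlL
  have hlog : 0 < Real.log L - Real.log l := sub_pos.2 (Real.log_lt_log hl hlL)
  set d := Real.log L - Real.log l with hd
  classical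
  let Θ : E n → ℝ := fun z => if z = 0 then 0 else
    Real.smoothTransition ((Real.log ‖z‖ - Real.log l) / d)
  have hΘ0 : ∀ z, ‖z‖ ≤ l → Θ z = 0 := by
    intro z hz
    show (if z = 0 then 0 else Real.smoothTransition ((Real.log ‖z‖ - Real.log l) / d)) = 0
    split_ifs with h
    · rfl
    · apply Real.smoothTransition.zero_of_nonpos
      apply div_nonpos_of_nonpos_of_nonneg _ hlog.le
      have := Real.log_le_log (norm_pos_iff.2 h) hz
      linarith
  have hΘ1 : ∀ z, L ≤ ‖z‖ → Θ z = 1 := by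
    intro z hz
    show (if z = 0 then 0 else Real.smoothTransition ((Real.log ‖z‖ - Real.log l) / d)) = 1
    have h : z ≠ 0 := norm_pos_iff.1 (hL.trans_le hz)
    rw [if_neg h]
    apply Real.smoothTransition.one_of_one_le
    rw [le_div_iff₀ hlog, one_mul, hd]
    have := Real.log_le_log hL hz
    linarith
  have near0 : ∀ z : E n, ‖z‖ < l → Θ =ᶠ[𝓝 z] fun _ => (0 : ℝ) := by
    intro z hz
    have : {x : E n | ‖x‖ < l} ∈ 𝓝 z := (isOpen_lt continuous_norm continuous_const).mem_nhds hz
    filter_upwards [this] with x hx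
    exact hΘ0 x (le_of_lt hx)
  have near1 : ∀ z : E n, L < ‖z‖ → Θ =ᶠ[𝓝 z] fun _ => (1 : ℝ) := by
    intro z hz
    have : {x : E n | L < ‖x‖} ∈ 𝓝 z := (isOpen_lt continuous_const continuous_norm).mem_nhds hz
    filter_upwards [this] with x hx
    exact hΘ1 x (le_of_lt hx)
  have nearz : ∀ z : E n, z ≠ 0 → Θ =ᶠ[𝓝 z] fun z =>
      Real.smoothTransition ((Real.log ‖z‖ - Real.log l) / d) := by
    intro z hz
    filter_upwards [isOpen_ne.mem_nhds hz] with x hx
    exact if_neg hx
  refine ⟨Θ, ?_, hΘ0, hΘ1, fun z => ⟨?_, ?_⟩⟩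
  · rw [contDiff_iff_contDiffAt]
    intro z
    by_cases hz : z = 0
    · rw [hz]
      exact contDiffAt_const.congr_of_eventuallyEq (near0 0 (by rw [norm_zero]; exact hl))
    · refine ContDiffAt.congr_of_eventuallyEq ?_ (nearz z hz)
      have h1 : ContDiffAt ℝ (⊤ : ℕ∞) (fun z : E n => (Real.log ‖z‖ - Real.log l) / d) z := by
        have h2 : ContDiffAt ℝ (⊤ : ℕ∞) (fun z : E n => ‖z‖) z := contDiffAt_norm ℝ hz
        have h3 := h2.log (norm_ne_zero_iff.2 hz)
        exact (h3.sub contDiffAt_const).div_const d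
      exact (Real.smoothTransition.contDiff.contDiffAt).comp z h1
  · rintro (h | h)
    · rw [(near0 z h).fderiv_eq]
      simp
    · rw [(near1 z h).fderiv_eq]
      simp
  · by_cases hz : z = 0
    · rw [hz, norm_zero, zero_mul]
      positivity
    · rw [(nearz z hz).fderiv_eq]
      have hz' : 0 < ‖z‖ := norm_pos_iff.2 hz
      have hn : DifferentiableAt ℝ (fun z : E n => ‖z‖) z :=
        (contDiffAt_norm ℝ hz (n := 1)).differentiableAt (by simp)
      have hN : ‖fderiv ℝ (fun z : E n => ‖z‖) z‖ ≤ 1 := by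
        have := norm_fderiv_le_of_lipschitz ℝ (f := fun z : E n => ‖z‖) (x₀ := z)
          lipschitzWith_one_norm
        simpa using this
      have h1 : HasFDerivAt (fun z : E n => (Real.log ‖z‖ - Real.log l) / d)
          (d⁻¹ • (‖z‖⁻¹ • fderiv ℝ (fun z : E n => ‖z‖) z)) z := by
        have := ((hn.hasFDerivAt.log hz'.ne').sub_const (Real.log l)).mul_const d⁻¹
        simpa [div_eq_mul_inv] using this
      have hs : HasDerivAt Real.smoothTransition
          (deriv Real.smoothTransition ((Real.log ‖z‖ - Real.log l) / d))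
          ((Real.log ‖z‖ - Real.log l) / d) :=
        ((Real.smoothTransition.contDiff (n := 1)).differentiable (by simp) _).hasDerivAt
      have h2 := hs.comp_hasFDerivAt z h1
      have e : fderiv ℝ (fun z : E n => Real.smoothTransition ((Real.log ‖z‖ - Real.log l) / d)) z =
        deriv Real.smoothTransition ((Real.log ‖z‖ - Real.log l) / d) •
          (d⁻¹ • (‖z‖⁻¹ • fderiv ℝ (fun z : E n => ‖z‖) z)) := h2.fderiv
      rw [e, norm_smul, norm_smul, norm_smul, Real.norm_eq_abs, norm_inv, norm_inv,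
        Real.norm_of_nonneg hlog.le, norm_norm]
      calc ‖z‖ * (|deriv Real.smoothTransition ((Real.log ‖z‖ - Real.log l) / d)| *
            (d⁻¹ * (‖z‖⁻¹ * ‖fderiv ℝ (fun z : E n => ‖z‖) z‖)))
          = |deriv Real.smoothTransition ((Real.log ‖z‖ - Real.log l) / d)| * d⁻¹ *
            ‖fderiv ℝ (fun z : E n => ‖z‖) z‖ * (‖z‖ * ‖z‖⁻¹) := by ring
        _ = |deriv Real.smoothTransition ((Real.log ‖z‖ - Real.log l) / d)| * d⁻¹ *
            ‖fderiv ℝ (fun z : E n => ‖z‖) z‖ := by rw [mul_inv_cancel₀ hz'.ne', mul_one]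
        _ ≤ C * d⁻¹ * 1 := by
            gcongr
            exact hC _
        _ = C / d := by rw [mul_one, div_eq_mul_inv]

end Pool.Agent.SKQ.H14
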